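import Mathlib

set_option autoImplicit false

open Filter Topology

namespace Pool.Agent.HinfCoh

/-- the base sequence -/
def NN (j : ℕ) : ℕ := 2 ^ 2 ^ j

/-- exponents -/
def MM (j : ℕ) : ℕ := NN j ^ 8

/-- radii -/
noncomputable def rr (k : ℕ) : ℝ := 1 - 1 / (MM k : ℝ)

lemma NN_pos (j : ℕ) : 0 < NN j := by unfold NN; positivity

lemma NN_ge_two (j : ℕ) : 2 ≤ NN j := by
  unfold NN
  calc 2 = 2 ^ 1 := by norm_num
    _ ≤ 2 ^ 2 ^ j := Nat.pow_le_pow_right (by norm_num) (Nat.one_le_two_pow)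

lemma NN_succ (j : ℕ) : NN (j + 1) = NN j ^ 2 := by
  unfold NN
  rw [← pow_mul, pow_succ]

lemma NN_strictMono : StrictMono NN := by
  apply strictMono_nat_of_lt_succ
  intro j
  rw [NN_succ]
  have := NN_ge_two j
  nlinarith

lemma MM_strictMono : StrictMono MM := by
  intro a b h
  unfold MM
  exact Nat.pow_lt_pow_left (NN_strictMono h) (by norm_num)

lemma MM_pos (j : ℕ) : 0 < MM j := by unfold MM; exact pow_pos (NN_pos j) 8

lemma MM_ge (j : ℕ) : 256 ≤ MM j := by
  unfold MM
  calc 256 = 2 ^ 8 := by norm_num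
    _ ≤ NN j ^ 8 := Nat.pow_le_pow_left (NN_ge_two j) 8

lemma NN_le_MM (j : ℕ) : NN j ≤ MM j := by
  unfold MM
  exact Nat.le_self_pow (by norm_num) _

lemma two_pow_le_NN (j : ℕ) : 2 ^ j ≤ NN j := by
  unfold NN
  exact Nat.pow_le_pow_right (by norm_num) (Nat.lt_two_pow_self).le

lemma lt_NN (j : ℕ) : j < NN j := lt_of_lt_of_le Nat.lt_two_pow_self (two_pow_le_NN j)

lemma rr_lt_one (k : ℕ) : rr k < 1 := by
  unfold rr
  have : (0 : ℝ) < MM k := by exact_mod_cast MM_pos k
  have : 0 < 1 / (MM k : ℝ) := by positivity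
  linarith

lemma rr_ge (k : ℕ) : 1 / 2 ≤ rr k := by
  unfold rr
  have h : (256 : ℝ) ≤ MM k := by exact_mod_cast MM_ge k
  have : 1 / (MM k : ℝ) ≤ 1 / 256 := by
    apply one_div_le_one_div_of_le <;> linarith
  linarith

lemma rr_pos (k : ℕ) : 0 < rr k := lt_of_lt_of_le (by norm_num) (rr_ge k)

lemma MM_tendsto : Tendsto (fun k => (MM k : ℝ)) atTop atTop :=
  tendsto_natCast_atTop_atTop.comp MM_strictMono.tendsto_atTop

lemma NN_tendsto : Tendsto (fun k => (NN k : ℝ)) atTop atTop :=
  tendsto_natCast_atTop_atTop.comp NN_strictMono.tendsto_atTop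

lemma rr_tendsto : Tendsto rr atTop (𝓝 1) := by
  unfold rr
  have h : Tendsto (fun k => 1 / (MM k : ℝ)) atTop (𝓝 0) := by
    simp only [one_div]
    exact MM_tendsto.inv_tendsto_atTop
  simpa using (tendsto_const_nhds (x := (1 : ℝ))).sub h

/-- `(1-1/M)^M ≥ 1/4`. -/
lemma rr_pow_ge (k : ℕ) : 1 / 4 ≤ rr k ^ (MM k) := by
  -- MM k is even
  have hev : MM k = 2 * (MM k / 2) := by
    have : 2 ∣ MM k := by
      unfold MM NN
      rw [← pow_mul]
      exact dvd_pow_self 2 (by positivity)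
    omega
  set m := MM k / 2 with hm
  have hM : (0 : ℝ) < MM k := by exact_mod_cast MM_pos k
  have hb : 1 / 2 ≤ rr k ^ m := by
    have h1 := one_add_mul_le_pow (a := -(1 / (MM k : ℝ))) (by
      have h : (256 : ℝ) ≤ MM k := by exact_mod_cast MM_ge k
      have : 1 / (MM k : ℝ) ≤ 1 / 256 := by
        apply one_div_le_one_div_of_le <;> linarith
      linarith) m
    have h2 : (1 : ℝ) + m * (-(1 / (MM k : ℝ))) = 1 / 2 := by
      have : (MM k : ℝ) = 2 * m := by exact_mod_cast hev
      rw [this] at hM ⊢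
      have : (m : ℝ) ≠ 0 := by
        intro h; rw [h] at hM; simp at hM
      field_simp
      ring
    rw [h2] at h1
    unfold rr
    rw [sub_eq_add_neg]
    exact h1
  rw [hev, pow_mul', ]
  calc (1 : ℝ) / 4 = (1 / 2) ^ 2 := by norm_num
    _ ≤ (rr k ^ m) ^ 2 := by
        apply pow_le_pow_left₀ (by norm_num) hb

lemma rr_pow_le (k : ℕ) : rr k ^ (MM k) ≤ 1 / 2 := by
  have hM : (0 : ℝ) < MM k := by exact_mod_cast MM_pos k
  have h1 : rr k ≤ Real.exp (-(1 / (MM k : ℝ))) := by
    unfold rr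
    have := Real.one_sub_le_exp_neg (1 / (MM k : ℝ))
    exact this
  calc rr k ^ (MM k) ≤ (Real.exp (-(1 / (MM k : ℝ)))) ^ (MM k) :=
        pow_le_pow_left₀ (rr_pos k).le h1 _
    _ = Real.exp (-1) := by
        rw [← Real.exp_nat_mul]
        congr 1
        field_simp
    _ ≤ 1 / 2 := by
        rw [Real.exp_neg]
        have : 2 ≤ Real.exp 1 := by
          have := Real.add_one_le_exp (1 : ℝ)
          linarith
        have h2 : (Real.exp 1)⁻¹ ≤ 2⁻¹ := inv_anti₀ (by norm_num) this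
        simpa using h2

/-- tail terms on the `k`-th circle -/
lemma tail_le {k j : ℕ} (h : k < j) : (NN j : ℝ) * rr k ^ (MM j - 1) ≤ 2 * (1 / 2) ^ j := by
  -- MM j = MM k * q, q ≥ NN j ^ 4
  have hNk : NN k ^ 2 ≤ NN j := by
    rw [← NN_succ]
    exact NN_strictMono.monotone h
  obtain ⟨q, hq⟩ : ∃ q, MM j = MM k * q ∧ NN j ^ 4 ≤ q := by
    have hd : NN k ∣ NN j := by
      unfold NN
      exact pow_dvd_pow 2 (Nat.pow_le_pow_right (by norm_num) h.le)
    have hd8 : MM k ∣ MM j := by unfold MM; exact pow_dvd_pow_of_dvd hd 8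
    obtain ⟨q, hq⟩ := hd8
    refine ⟨q, hq, ?_⟩
    -- NN j ^ 8 = NN k ^ 8 * q, NN k^8 ≤ NN j ^4
    have h1 : MM k ≤ NN j ^ 4 := by
      unfold MM
      calc NN k ^ 8 = (NN k ^ 2) ^ 4 := by ring
        _ ≤ NN j ^ 4 := Nat.pow_le_pow_left hNk 4
    have h2 : NN j ^ 4 * NN j ^ 4 ≤ NN j ^ 4 * q := by
      calc NN j ^ 4 * NN j ^ 4 = MM j := by unfold MM; ring
        _ = MM k * q := hq
        _ ≤ NN j ^ 4 * q := Nat.mul_le_mul_right q h1
    exact Nat.le_of_mul_le_mul_left h2 (pow_pos (NN_pos j) 4)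
  obtain ⟨hq, hq4⟩ := hq
  have hr0 := rr_pos k
  have hr1 := rr_lt_one k
  have e1 : rr k ^ (MM j) ≤ (1 / 2) ^ q := by
    rw [hq, pow_mul]
    exact pow_le_pow_left₀ (by positivity) (rr_pow_le k) q
  have e2 : rr k ^ (MM j - 1) ≤ 2 * rr k ^ (MM j) := by
    have : rr k ^ (MM j) = rr k ^ (MM j - 1) * rr k := by
      rw [← pow_succ]
      congr 1
      have := MM_pos j
      omega
    rw [this]
    have hg := rr_ge k
    have hp : 0 ≤ rr k ^ (MM j - 1) := by positivity
    nlinarith
  have e3 : (NN j : ℝ) * (1 / 2) ^ q ≤ (1 / 2) ^ j := by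
    have a1 : q ≥ NN j + j := by
      have h2 := NN_ge_two j
      have h3 := lt_NN j
      have : NN j ^ 4 ≥ 2 * NN j := by
        calc 2 * NN j ≤ NN j * NN j := Nat.mul_le_mul_right _ h2
          _ = NN j ^ 2 := by ring
          _ ≤ NN j ^ 4 := Nat.pow_le_pow_right (NN_pos j) (by norm_num)
      omega
    have a2 : ((1 : ℝ) / 2) ^ q ≤ (1 / 2) ^ (NN j + j) :=
      pow_le_pow_of_le_one (by norm_num) (by norm_num) a1
    have a3 : (NN j : ℝ) * (1 / 2) ^ (NN j) ≤ 1 := by
      have : (NN j : ℝ) ≤ 2 ^ (NN j) := by exact_mod_cast (Nat.lt_two_pow_self).le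
      rw [one_div, inv_pow]
      have hp : (0 : ℝ) < 2 ^ (NN j) := by positivity
      rw [← div_eq_mul_inv, div_le_one hp]
      exact this
    calc (NN j : ℝ) * (1 / 2) ^ q ≤ (NN j : ℝ) * (1 / 2) ^ (NN j + j) := by
          apply mul_le_mul_of_nonneg_left a2 (by positivity)
      _ = ((NN j : ℝ) * (1 / 2) ^ (NN j)) * (1 / 2) ^ j := by rw [pow_add]; ring
      _ ≤ 1 * (1 / 2) ^ j := by
          apply mul_le_mul_of_nonneg_right a3 (by positivity)
      _ = (1 / 2) ^ j := one_mul _
  calc (NN j : ℝ) * rr k ^ (MM j - 1) ≤ (NN j : ℝ) * (2 * rr k ^ (MM j)) := by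
        apply mul_le_mul_of_nonneg_left e2 (by positivity)
    _ ≤ (NN j : ℝ) * (2 * (1 / 2) ^ q) := by
        apply mul_le_mul_of_nonneg_left _ (by positivity)
        linarith
    _ = 2 * ((NN j : ℝ) * (1 / 2) ^ q) := by ring
    _ ≤ 2 * (1 / 2) ^ j := by linarith

/-- the coefficient-power term -/
noncomputable def tm (A : Set ℕ) (z : ℂ) (j : ℕ) : ℂ :=
  A.indicator (fun j => (NN j : ℂ) * z ^ (MM j - 1)) j

/-- the lacunary series attached to a set of indices -/
noncomputable def psi (A : Set ℕ) (z : ℂ) : ℂ := ∑' j, tm A z j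

lemma norm_tm_le (A : Set ℕ) (z : ℂ) (j : ℕ) : ‖tm A z j‖ ≤ (NN j : ℝ) * ‖z‖ ^ (MM j - 1) := by
  unfold tm
  by_cases h : j ∈ A
  · rw [Set.indicator_of_mem h]; simp
  · rw [Set.indicator_of_notMem h]; simp; positivity

lemma summable_maj {ρ : ℝ} (h0 : 0 ≤ ρ) (h1 : ρ < 1) :
    Summable (fun j => (NN j : ℝ) * ρ ^ (MM j - 1)) := by
  have hs : Summable (fun n : ℕ => ((n : ℝ) + 1) * ρ ^ n) := by
    have a := summable_pow_mul_geometric_of_norm_lt_one (R := ℝ) 1 (r := ρ) (by
      rw [Real.norm_eq_abs, abs_of_nonneg h0]; exact h1)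
    have b := summable_geometric_of_lt_one h0 h1
    have := a.add b
    refine this.congr ?_
    intro n; ring
  have hinj : Function.Injective (fun j => MM j - 1) := by
    intro a b hab
    simp only at hab
    apply MM_strictMono.injective
    have := MM_pos a
    have := MM_pos b
    omega
  have := hs.comp_injective hinj
  refine Summable.of_nonneg_of_le (fun j => by positivity) (fun j => ?_) this
  simp only [Function.comp]
  apply mul_le_mul_of_nonneg_right _ (by positivity)
  have h1 := MM_pos j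
  have h2 : (NN j : ℝ) ≤ MM j := by exact_mod_cast NN_le_MM j
  have h3 : ((MM j - 1 : ℕ) : ℝ) + 1 = MM j := by
    rw [Nat.cast_sub h1]; simp
  rw [h3]; exact h2

lemma summable_tm (A : Set ℕ) {z : ℂ} (h : ‖z‖ < 1) : Summable (tm A z) :=
  Summable.of_norm_bounded (summable_maj (norm_nonneg z) h) (norm_tm_le A z)

lemma norm_psi_le (A : Set ℕ) {z : ℂ} (h : ‖z‖ < 1) :
    ‖psi A z‖ ≤ ∑' j, (NN j : ℝ) * ‖z‖ ^ (MM j - 1) :=
  tsum_of_norm_bounded (summable_maj (norm_nonneg z) h).hasSum (norm_tm_le A z)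

lemma psi_differentiableOn (A : Set ℕ) : DifferentiableOn ℂ (psi A) (Metric.ball 0 1) := by
  intro z hz
  have hz' : ‖z‖ < 1 := by simpa using hz
  obtain ⟨ρ, hzρ, hρ1⟩ := exists_between hz'
  have hρ0 : 0 ≤ ρ := (norm_nonneg z).trans hzρ.le
  have hd : DifferentiableOn ℂ (psi A) (Metric.ball 0 ρ) := by
    unfold psi
    apply Complex.differentiableOn_tsum_of_summable_norm (summable_maj hρ0 hρ1)
    · intro j
      unfold tm
      by_cases h : j ∈ A
      · simp only [Set.indicator_of_mem h]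
        fun_prop
      · simp only [Set.indicator_of_notMem h]
        fun_prop
    · exact Metric.isOpen_ball
    · intro j w hw
      refine (norm_tm_le A w j).trans ?_
      have hw' : ‖w‖ < ρ := by simpa using hw
      gcongr
  have hmem : z ∈ Metric.ball (0 : ℂ) ρ := by simpa using hzρ
  exact ((hd z hmem).differentiableAt (Metric.isOpen_ball.mem_nhds hmem)).differentiableWithinAt

/-- error bound on the `k`-th circle -/
noncomputable def EE (k : ℕ) : ℝ := k * NN (k - 1) + 4

lemma sum_others (k : ℕ) :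
    ∑' j, (if j = k then 0 else (NN j : ℝ) * rr k ^ (MM j - 1)) ≤ EE k := by
  have hr0 := rr_pos k
  have hr1 := rr_lt_one k
  have hmaj : ∀ j, (if j = k then 0 else (NN j : ℝ) * rr k ^ (MM j - 1)) ≤
      (if j < k then (NN (k - 1) : ℝ) else 0) + 2 * (1 / 2) ^ j := by
    intro j
    by_cases h1 : j = k
    · rw [if_pos h1]; split_ifs <;> positivity
    · rw [if_neg h1]
      rcases lt_or_gt_of_ne h1 with h2 | h2
      · rw [if_pos h2]
        have a1 : rr k ^ (MM j - 1) ≤ 1 := pow_le_one₀ hr0.le hr1.le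
        have a2 : (NN j : ℝ) ≤ NN (k - 1) := by
          exact_mod_cast NN_strictMono.monotone (by omega)
        have a3 : (0 : ℝ) ≤ NN j := by positivity
        have a4 : (0 : ℝ) ≤ 2 * (1 / 2) ^ j := by positivity
        nlinarith
      · rw [if_neg (by omega), zero_add]
        exact tail_le h2
  have hs1 : Summable (fun j => if j < k then (NN (k - 1) : ℝ) else 0) := by
    refine summable_of_hasFiniteSupport ((Set.finite_lt_nat k).subset ?_)
    intro j hj
    simp only [Function.mem_support, ne_eq, ite_eq_right_iff, not_forall] at hj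
    exact hj.1
  have hs2 : Summable (fun j : ℕ => 2 * ((1 : ℝ) / 2) ^ j) :=
    (summable_geometric_two).mul_left 2
  have hs : Summable (fun j => if j = k then 0 else (NN j : ℝ) * rr k ^ (MM j - 1)) := by
    refine Summable.of_nonneg_of_le (fun j => ?_) hmaj (hs1.add hs2)
    split_ifs <;> positivity
  refine (hs.tsum_le_tsum hmaj (hs1.add hs2)).trans ?_
  rw [hs1.tsum_add hs2, tsum_mul_left, tsum_geometric_two]
  have : ∑' j, (if j < k then (NN (k - 1) : ℝ) else 0) = k * NN (k - 1) := by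
    rw [tsum_eq_sum (s := Finset.range k)]
    · rw [Finset.sum_congr rfl (g := fun _ => (NN (k - 1) : ℝ))]
      · simp
      · intro j hj
        rw [if_pos (Finset.mem_range.mp hj)]
    · intro j hj
      rw [if_neg (by simpa using hj)]
  rw [this]
  unfold EE
  linarith

lemma circle_bound (A : Set ℕ) (k : ℕ) {z : ℂ} (hz : ‖z‖ = rr k) :
    ‖psi A z - tm A z k‖ ≤ EE k := by
  have hz1 : ‖z‖ < 1 := by rw [hz]; exact rr_lt_one k
  have hs := summable_tm A hz1
  have h1 : psi A z - tm A z k = ∑' j, (if j = k then 0 else tm A z j) := by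
    unfold psi
    rw [hs.tsum_eq_add_tsum_ite k]
    ring
  rw [h1]
  refine le_trans ?_ (sum_others k)
  have hs' : Summable (fun j => if j = k then 0 else (NN j : ℝ) * rr k ^ (MM j - 1)) := by
    have := summable_maj (rr_pos k).le (rr_lt_one k)
    refine Summable.of_nonneg_of_le (fun j => ?_) (fun j => ?_) this
    · have := rr_pos k
      split_ifs <;> positivity
    · have := rr_pos k
      split_ifs
      · positivity
      · exact le_rfl
  apply tsum_of_norm_bounded hs'.hasSum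
  intro j
  split_ifs with h
  · simp
  · have := norm_tm_le A z j
    rwa [hz] at this

/-- main size on the `k`-th circle -/
noncomputable def WW (k : ℕ) : ℝ := (NN k : ℝ) / 4

lemma psi_ge {A : Set ℕ} {k : ℕ} (hk : k ∈ A) {z : ℂ} (hz : ‖z‖ = rr k) :
    WW k - EE k ≤ ‖psi A z‖ := by
  have h1 := circle_bound A k hz
  have h2 : WW k ≤ ‖tm A z k‖ := by
    unfold tm
    rw [Set.indicator_of_mem hk, norm_mul, norm_pow, hz, Complex.norm_natCast]
    have h3 : rr k ^ MM k ≤ rr k ^ (MM k - 1) :=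
      pow_le_pow_of_le_one (rr_pos k).le (rr_lt_one k).le (Nat.sub_le _ _)
    have h4 := rr_pow_ge k
    unfold WW
    have h5 : (0 : ℝ) ≤ NN k := by positivity
    nlinarith
  have h3 : ‖tm A z k‖ ≤ ‖psi A z‖ + ‖psi A z - tm A z k‖ := by
    have := norm_sub_norm_le (tm A z k) (psi A z)
    rw [norm_sub_rev] at this
    linarith
  linarith

lemma psi_le {A : Set ℕ} {k : ℕ} (hk : k ∉ A) {z : ℂ} (hz : ‖z‖ = rr k) :
    ‖psi A z‖ ≤ EE k := by
  have h1 := circle_bound A k hz
  have h2 : tm A z k = 0 := by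
    unfold tm
    rw [Set.indicator_of_notMem hk]
  rwa [h2, sub_zero] at h1

lemma EE_nonneg (k : ℕ) : 0 ≤ EE k := by unfold EE; positivity

lemma ratio_tendsto : Tendsto (fun k => EE k / WW k) atTop (𝓝 0) := by
  -- EE (k+1) / WW (k+1) = 4 ((k+1) NN k + 4)/ NN k ^2
  rw [← tendsto_add_atTop_iff_nat 1]
  have h1 : ∀ k : ℕ, EE (k + 1) / WW (k + 1) ≤ 24 * ((k : ℝ) + 1) / 2 ^ k := by
    intro k
    unfold EE WW
    rw [Nat.add_sub_cancel, NN_succ]
    have hN : (1 : ℝ) ≤ NN k := by exact_mod_cast NN_pos k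
    have h2k : (2 : ℝ) ^ k ≤ NN k := by exact_mod_cast two_pow_le_NN k
    have hp : (0 : ℝ) < 2 ^ k := by positivity
    push_cast
    rw [div_le_div_iff₀ (by positivity) hp]
    have hk : (0 : ℝ) ≤ k := by positivity
    have e1 : (((k : ℝ) + 1) * NN k + 4) ≤ 5 * ((k : ℝ) + 1) * NN k := by nlinarith
    have e2 : (((k : ℝ) + 1) * NN k + 4) * 2 ^ k ≤ (5 * ((k : ℝ) + 1) * NN k) * NN k := by
      apply mul_le_mul e1 h2k hp.le
      positivity
    nlinarith [mul_nonneg (add_nonneg hk zero_le_one) (sq_nonneg (NN k : ℝ))]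
  have h2 : Tendsto (fun k : ℕ => 24 * ((k : ℝ) + 1) / 2 ^ k) atTop (𝓝 0) := by
    have a := tendsto_pow_const_div_const_pow_of_one_lt 1 (r := (2 : ℝ)) (by norm_num)
    have b := tendsto_pow_const_div_const_pow_of_one_lt 0 (r := (2 : ℝ)) (by norm_num)
    have c := (a.add b).const_mul 24
    simp only [add_zero, mul_zero] at c
    refine c.congr ?_
    intro k
    simp only [pow_one, pow_zero]
    ring
  refine squeeze_zero (fun k => ?_) h1 h2
  unfold WW
  have := EE_nonneg (k + 1)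
  positivity

lemma WW_pos (k : ℕ) : 0 < WW k := by
  unfold WW
  have : (0 : ℝ) < NN k := by exact_mod_cast NN_pos k
  positivity

lemma WW_tendsto : Tendsto WW atTop atTop := by
  unfold WW
  exact NN_tendsto.atTop_div_const (by norm_num)

/-- maximum principle along a subsequence of circles -/
lemma eq_zero_of_circles {g : ℂ → ℂ} (hg : DifferentiableOn ℂ g (Metric.ball 0 1))
    (u : ℕ → ℝ) (hu : Tendsto u atTop (𝓝 0)) (A : Set ℕ) (hA : A.Infinite)
    (h : ∀ᶠ k in atTop, k ∈ A → ∀ z : ℂ, ‖z‖ = rr k → ‖g z‖ ≤ u k) :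
    ∀ z ∈ Metric.ball (0 : ℂ) 1, g z = 0 := by
  intro z hz
  have hz' : ‖z‖ < 1 := by simpa using hz
  rw [← norm_eq_zero]
  apply le_antisymm _ (norm_nonneg _)
  by_contra hne
  push Not at hne
  have e1 : ∀ᶠ k in atTop, u k < ‖g z‖ := hu.eventually (gt_mem_nhds hne)
  have e2 : ∀ᶠ k in atTop, ‖z‖ < rr k := rr_tendsto.eventually (lt_mem_nhds hz')
  obtain ⟨K, hK⟩ := (h.and (e1.and e2)).exists_forall_of_atTop
  obtain ⟨k, hkA, hkK⟩ := hA.exists_gt K
  obtain ⟨h3, h4, h5⟩ := hK k hkK.le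
  have h3 := h3 hkA
  have hsub : Metric.closedBall (0 : ℂ) (rr k) ⊆ Metric.ball 0 1 :=
    Metric.closedBall_subset_ball (rr_lt_one k)
  have hd : DiffContOnCl ℂ g (Metric.ball 0 (rr k)) := by
    apply DifferentiableOn.diffContOnCl
    rw [closure_ball _ (rr_pos k).ne']
    exact hg.mono hsub
  have := Complex.norm_le_of_forall_mem_frontier_norm_le Metric.isBounded_ball hd (C := u k)
    (by
      intro w hw
      rw [frontier_ball _ (rr_pos k).ne'] at hw
      exact h3 w (by simpa using hw)) (z := z) (by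
        rw [closure_ball _ (rr_pos k).ne']
        simpa using h5.le)
  linarith

lemma big_tendsto : Tendsto (fun k => WW k - EE k) atTop atTop := by
  have h1 : ∀ᶠ k in atTop, EE k / WW k ≤ 1 / 2 :=
    ratio_tendsto.eventually (ge_mem_nhds (by norm_num))
  have h2 : ∀ᶠ k in atTop, WW k / 2 ≤ WW k - EE k := by
    filter_upwards [h1] with k hk
    have := WW_pos k
    rw [div_le_iff₀ this] at hk
    linarith
  exact tendsto_atTop_mono' _ h2 (WW_tendsto.atTop_div_const (by norm_num))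

/-- `psi univ * b` bounded forces `b = 0`. -/
lemma eq_zero_of_psi_mul_bdd {g : ℂ → ℂ} (hg : DifferentiableOn ℂ g (Metric.ball 0 1))
    (C : ℝ) (h : ∀ z ∈ Metric.ball (0 : ℂ) 1, ‖psi Set.univ z * g z‖ ≤ C) :
    ∀ z ∈ Metric.ball (0 : ℂ) 1, g z = 0 := by
  apply eq_zero_of_circles hg (fun k => C / (WW k - EE k)) ?_ Set.univ Set.infinite_univ ?_
  · exact Tendsto.const_div_atTop big_tendsto C
  · filter_upwards [big_tendsto.eventually_gt_atTop 0] with k hk _ z hz
    have hz1 : z ∈ Metric.ball (0 : ℂ) 1 := by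
      simp only [Metric.mem_ball, dist_zero_right, hz]; exact rr_lt_one k
    have h1 := h z hz1
    rw [norm_mul] at h1
    have h2 := psi_ge (Set.mem_univ k) hz
    rw [le_div_iff₀ hk]
    have := norm_nonneg (g z)
    nlinarith

/-- residue classes -/
def cls (n : ℕ) (i : ℕ) : Set ℕ := {k | k % n = i}

lemma cls_infinite {n i : ℕ} (hi : i < n) : (cls n i).Infinite := by
  apply Set.infinite_of_not_bddAbove
  rintro ⟨B, hB⟩
  have : n * (B + 1) + i ∈ cls n i := by
    unfold cls
    simp [Nat.add_mod, Nat.mod_eq_of_lt hi]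
  have := hB this
  have hn : 0 < n := by omega
  nlinarith

/-- Independence over bounded holomorphic functions. -/
lemma indep (n : ℕ) (lam : Fin n → ℂ → ℂ)
    (hd : ∀ i, DifferentiableOn ℂ (lam i) (Metric.ball 0 1))
    (L : ℝ) (hb : ∀ i, ∀ z ∈ Metric.ball (0 : ℂ) 1, ‖lam i z‖ ≤ L)
    (h : ∀ᶠ k in atTop, ∀ z : ℂ, ‖z‖ = rr k → ∑ i : Fin n, lam i z * psi (cls n i) z = 0) :
    ∀ i, ∀ z ∈ Metric.ball (0 : ℂ) 1, lam i z = 0 := by
  intro i
  have hL : 0 ≤ L := (norm_nonneg _).trans (hb i 0 (by simp))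
  have hratio : Tendsto (fun k => (n * L) * (2 * (EE k / WW k))) atTop (𝓝 0) := by
    have := (ratio_tendsto.const_mul 2).const_mul (n * L)
    simpa using this
  apply eq_zero_of_circles (hd i) _ hratio (cls n i) (cls_infinite i.2)
  have h1 : ∀ᶠ k in atTop, EE k / WW k ≤ 1 / 2 :=
    ratio_tendsto.eventually (ge_mem_nhds (by norm_num))
  filter_upwards [h, h1] with k hk hk1 hki z hz
  have hz1 : z ∈ Metric.ball (0 : ℂ) 1 := by
    simp only [Metric.mem_ball, dist_zero_right, hz]; exact rr_lt_one k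
  have hsum := hk z hz
  rw [← Finset.add_sum_erase _ _ (Finset.mem_univ i)] at hsum
  have h2 : ‖lam i z * psi (cls n i) z‖ ≤ n * L * EE k := by
    have : lam i z * psi (cls n i) z = - ∑ x ∈ Finset.univ.erase i, lam x z * psi (cls n x) z := by
      linear_combination hsum
    rw [this, norm_neg]
    refine (norm_sum_le _ _).trans ?_
    calc ∑ x ∈ Finset.univ.erase i, ‖lam x z * psi (cls n x) z‖
        ≤ ∑ x ∈ Finset.univ.erase i, L * EE k := by
          apply Finset.sum_le_sum
          intro x hx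
          rw [norm_mul]
          have hne : k ∉ cls n x := by
            intro hkx
            unfold cls at hki hkx
            simp only [Set.mem_ofPred_eq] at hki hkx
            apply Finset.ne_of_mem_erase hx
            apply Fin.ext
            omega
          exact mul_le_mul (hb x z hz1) (psi_le hne hz) (norm_nonneg _) hL
      _ ≤ n * L * EE k := by
          rw [Finset.sum_const, nsmul_eq_mul]
          have : ((Finset.univ.erase i).card : ℝ) ≤ n := by
            have := Finset.card_le_univ (Finset.univ.erase i)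
            simp only [Fintype.card_fin] at this
            exact_mod_cast this
          have h0 := mul_nonneg hL (EE_nonneg k)
          nlinarith
  rw [norm_mul] at h2
  have h3 := psi_ge hki hz
  have hW := WW_pos k
  have h4 : WW k / 2 ≤ WW k - EE k := by
    rw [div_le_iff₀ hW] at hk1
    linarith
  have h5 : ‖lam i z‖ * (WW k / 2) ≤ n * L * EE k := by
    have := norm_nonneg (lam i z)
    nlinarith
  have h6 : (n * L) * (2 * (EE k / WW k)) = (n * L * EE k) / (WW k / 2) := by
    field_simp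
  rw [h6, le_div_iff₀ (by positivity)]
  exact h5

end Pool.Agent.HinfCoh
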