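import Mathlib
import Pool.Agent.HinfCoh.Lacunary

set_option autoImplicit false

open Filter Topology

namespace Pool.Agent.HinfCoh

section definition

variable {E : Type*} [NormedAddCommGroup E] [NormedSpace ℂ E]

/-- `IsBddHol Ω f`: the function `f : Ω → ℂ` is holomorphic (it is the restriction of a function
on the ambient space that is complex differentiable at the points of `Ω`, within `Ω`) and
bounded. For open `Ω` these are the bounded holomorphic functions on `Ω`. -/
def IsBddHol (Ω : Set E) (f : Ω → ℂ) : Prop :=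
  (∃ F : E → ℂ, DifferentiableOn ℂ F Ω ∧ ∀ p : Ω, F p = f p) ∧ ∃ C : ℝ, ∀ p : Ω, ‖f p‖ ≤ C

variable {Ω : Set E} {f g : Ω → ℂ}

lemma IsBddHol.mul (hf : IsBddHol Ω f) (hg : IsBddHol Ω g) : IsBddHol Ω (f * g) := by
  obtain ⟨⟨F, hF, hFf⟩, C, hC⟩ := hf
  obtain ⟨⟨G, hG, hGg⟩, D, hD⟩ := hg
  refine ⟨⟨fun p => F p * G p, hF.mul hG, fun p => by simp [hFf, hGg]⟩, C * D, fun p => ?_⟩
  rw [Pi.mul_apply, norm_mul]
  exact mul_le_mul (hC p) (hD p) (norm_nonneg _) ((norm_nonneg _).trans (hC p))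

lemma IsBddHol.one : IsBddHol Ω (1 : Ω → ℂ) :=
  ⟨⟨fun _ => 1, differentiableOn_const _, fun _ => rfl⟩, 1, fun p => by simp⟩

lemma IsBddHol.add (hf : IsBddHol Ω f) (hg : IsBddHol Ω g) : IsBddHol Ω (f + g) := by
  obtain ⟨⟨F, hF, hFf⟩, C, hC⟩ := hf
  obtain ⟨⟨G, hG, hGg⟩, D, hD⟩ := hg
  refine ⟨⟨fun p => F p + G p, hF.add hG, fun p => by simp [hFf, hGg]⟩, C + D, fun p => ?_⟩
  rw [Pi.add_apply]
  exact (norm_add_le _ _).trans (add_le_add (hC p) (hD p))

lemma IsBddHol.zero : IsBddHol Ω (0 : Ω → ℂ) :=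
  ⟨⟨fun _ => 0, differentiableOn_const _, fun _ => rfl⟩, 0, fun p => by simp⟩

lemma IsBddHol.neg (hf : IsBddHol Ω f) : IsBddHol Ω (-f) := by
  obtain ⟨⟨F, hF, hFf⟩, C, hC⟩ := hf
  refine ⟨⟨fun p => - F p, hF.neg, fun p => by simp [hFf]⟩, C, fun p => ?_⟩
  rw [Pi.neg_apply, norm_neg]
  exact hC p

/-- For a subset `Ω` of a complex normed space, `Hinf Ω` is the ring of all functions
`Ω → ℂ` that are bounded and holomorphic, with pointwise operations. -/
def Hinf (Ω : Set E) : Subring (Ω → ℂ) where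
  carrier := {f | IsBddHol Ω f}
  mul_mem' := IsBddHol.mul
  one_mem' := IsBddHol.one
  add_mem' := IsBddHol.add
  zero_mem' := IsBddHol.zero
  neg_mem' := IsBddHol.neg

end definition

/-- Build an element of `Hinf Ω` from a function on the ambient space. -/
def mk {E : Type*} [NormedAddCommGroup E] [NormedSpace ℂ E] {Ω : Set E} (F : E → ℂ)
    (hF : DifferentiableOn ℂ F Ω) (hb : ∃ C : ℝ, ∀ p ∈ Ω, ‖F p‖ ≤ C) : Hinf Ω :=
  ⟨fun p => F p, ⟨F, hF, fun _ => rfl⟩, by
    obtain ⟨C, hC⟩ := hb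
    exact ⟨C, fun p => hC p p.2⟩⟩

/-- a chosen holomorphic extension -/
noncomputable def ext {E : Type*} [NormedAddCommGroup E] [NormedSpace ℂ E] {Ω : Set E}
    (f : Hinf Ω) : E → ℂ := Classical.choose f.2.1

lemma ext_diff {E : Type*} [NormedAddCommGroup E] [NormedSpace ℂ E] {Ω : Set E}
    (f : Hinf Ω) : DifferentiableOn ℂ (ext f) Ω := (Classical.choose_spec f.2.1).1

lemma ext_eq {E : Type*} [NormedAddCommGroup E] [NormedSpace ℂ E] {Ω : Set E}
    (f : Hinf Ω) {p : E} (hp : p ∈ Ω) : ext f p = f.1 ⟨p, hp⟩ :=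
  (Classical.choose_spec f.2.1).2 ⟨p, hp⟩

lemma ext_mk {E : Type*} [NormedAddCommGroup E] [NormedSpace ℂ E] {Ω : Set E} (F : E → ℂ)
    (hF : DifferentiableOn ℂ F Ω) (hb : ∃ C : ℝ, ∀ p ∈ Ω, ‖F p‖ ≤ C) {p : E} (hp : p ∈ Ω) :
    ext (mk F hF hb) p = F p := by
  rw [ext_eq _ hp]; rfl

lemma ext_mul {E : Type*} [NormedAddCommGroup E] [NormedSpace ℂ E] {Ω : Set E}
    (f g : Hinf Ω) {p : E} (hp : p ∈ Ω) : ext (f * g) p = ext f p * ext g p := by
  rw [ext_eq _ hp, ext_eq _ hp, ext_eq _ hp]; rfl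

lemma ext_sum {E : Type*} [NormedAddCommGroup E] [NormedSpace ℂ E] {Ω : Set E} {ι : Type*}
    (s : Finset ι) (f : ι → Hinf Ω) {p : E} (hp : p ∈ Ω) :
    ext (∑ i ∈ s, f i) p = ∑ i ∈ s, ext (f i) p := by
  classical
  induction s using Finset.induction_on with
  | empty => simp only [Finset.sum_empty]; rw [ext_eq _ hp]; rfl
  | insert a s ha ih =>
    rw [Finset.sum_insert ha, Finset.sum_insert ha, ← ih, ext_eq _ hp, ext_eq _ hp, ext_eq _ hp]
    rfl

lemma ext_bdd {E : Type*} [NormedAddCommGroup E] [NormedSpace ℂ E] {Ω : Set E}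
    (f : Hinf Ω) : ∃ C : ℝ, ∀ p ∈ Ω, ‖ext f p‖ ≤ C := by
  obtain ⟨C, hC⟩ := f.2.2
  refine ⟨C, fun p hp => ?_⟩
  rw [ext_eq _ hp]; exact hC _

/-- The disc ring. -/
noncomputable abbrev Rd := Hinf (Metric.ball (0 : ℂ) 1)

/-- The main abstract lemma. `c` is `0` for the ball and `1` for the bidisc. -/
theorem not_fg {Ω : Set (ℂ × ℂ)} (hΩ : IsOpen Ω) (c : ℂ)
    (hc : ∀ z ∈ Metric.ball (0 : ℂ) 1, (z, c * z) ∈ Ω) (P : Ideal (Hinf Ω))
    (hP : ∀ F ∈ P, ∀ z ∈ Metric.ball (0 : ℂ) 1, ∃ l : ℂ,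
      Tendsto (fun t : ℂ => ext F (z, c * z + t) / t ^ 2) (𝓝[≠] 0) (𝓝 l))
    (hK : ∀ A : Set ℕ, ∃ K ∈ P, ∀ z ∈ Metric.ball (0 : ℂ) 1,
      Tendsto (fun t : ℂ => ext K (z, c * z + t) / t ^ 2) (𝓝[≠] 0)
        (𝓝 (psi Set.univ z * psi A z))) : ¬ P.FG := by
  classical
  rintro ⟨S, hS⟩
  -- number of generators
  let n := S.card
  choose K hKP hKlim using hK
  -- coefficients
  have hmem : ∀ i : Fin (n + 1), K (cls (n + 1) i) ∈ Submodule.span (Hinf Ω) (S : Set (Hinf Ω)) := by
    intro i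
    have := hKP (cls (n + 1) i)
    rw [← hS] at this
    exact this
  have hcoef : ∀ i : Fin (n + 1), ∃ G : Hinf Ω → Hinf Ω,
      ∑ F ∈ S, G F * F = K (cls (n + 1) i) := by
    intro i
    obtain ⟨G, hG, hsum⟩ := Submodule.mem_span_finset.mp (hmem i)
    exact ⟨G, by simpa [smul_eq_mul] using hsum⟩
  choose G hG using hcoef
  -- restriction to the disc
  have hmaps : ∀ z ∈ Metric.ball (0 : ℂ) 1, (z, c * z) ∈ Ω := hc
  have hrd : ∀ f : Hinf Ω, DifferentiableOn ℂ (fun z => ext f (z, c * z)) (Metric.ball 0 1) := by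
    intro f
    apply (ext_diff f).comp (t := Ω)
    · fun_prop
    · intro z hz; exact hmaps z hz
  have hrb : ∀ f : Hinf Ω, ∃ C : ℝ, ∀ z ∈ Metric.ball (0 : ℂ) 1, ‖ext f (z, c * z)‖ ≤ C := by
    intro f
    obtain ⟨C, hC⟩ := ext_bdd f
    exact ⟨C, fun z hz => hC _ (hmaps z hz)⟩
  let rst : Hinf Ω → Rd := fun f => mk (fun z => ext f (z, c * z)) (hrd f) (hrb f)
  have hrst : ∀ f : Hinf Ω, ∀ z ∈ Metric.ball (0 : ℂ) 1, ext (rst f) z = ext f (z, c * z) := by
    intro f z hz
    exact ext_mk _ _ _ hz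
  -- linear dependence
  let v : Fin (n + 1) → (S → Rd) := fun i F => rst (G i F)
  have hdep : ¬ LinearIndependent Rd v := by
    intro hli
    have h1 := hli.fintype_card_le_finrank
    rw [Module.finrank_fintype_fun_eq_card, Fintype.card_fin] at h1
    simp only [Fintype.card_coe] at h1
    omega
  rw [Fintype.not_linearIndependent_iff] at hdep
  obtain ⟨lam, hlam, i0, hi0⟩ := hdep
  -- the relation
  have hrel : ∀ z ∈ Metric.ball (0 : ℂ) 1,
      ∑ i : Fin (n + 1), ext (lam i) z * (psi Set.univ z * psi (cls (n + 1) i) z) = 0 := by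
    intro z hz
    -- limits of generators
    have hgl : ∀ F ∈ S, ∃ l : ℂ,
        Tendsto (fun t : ℂ => ext F (z, c * z + t) / t ^ 2) (𝓝[≠] 0) (𝓝 l) := by
      intro F hF
      apply hP F _ z hz
      rw [← hS]
      exact Submodule.subset_span hF
    choose! l hl using hgl
    have hzΩ : (z, c * z) ∈ Ω := hmaps z hz
    have hcont : Tendsto (fun t : ℂ => (z, c * z + t)) (𝓝[≠] 0) (𝓝 (z, c * z)) := by
      have : Continuous (fun t : ℂ => (z, c * z + t)) := by fun_prop
      have h := this.tendsto 0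
      simp only [add_zero] at h
      exact h.mono_left nhdsWithin_le_nhds
    have hevΩ : ∀ᶠ t : ℂ in 𝓝[≠] 0, (z, c * z + t) ∈ Ω :=
      hcont.eventually (hΩ.mem_nhds hzΩ)
    have hval : ∀ i : Fin (n + 1), psi Set.univ z * psi (cls (n + 1) i) z =
        ∑ F ∈ S, ext (G i F) (z, c * z) * l F := by
      intro i
      have h1 := hKlim (cls (n + 1) i) z hz
      have h2 : Tendsto (fun t : ℂ => ext (K (cls (n + 1) i)) (z, c * z + t) / t ^ 2) (𝓝[≠] 0)
          (𝓝 (∑ F ∈ S, ext (G i F) (z, c * z) * l F)) := by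
        have h3 : Tendsto (fun t : ℂ => ∑ F ∈ S, ext (G i F) (z, c * z + t) *
            (ext F (z, c * z + t) / t ^ 2)) (𝓝[≠] 0)
            (𝓝 (∑ F ∈ S, ext (G i F) (z, c * z) * l F)) := by
          apply tendsto_finsetSum
          intro F hF
          apply Tendsto.mul _ (hl F hF)
          have : ContinuousAt (ext (G i F)) (z, c * z) :=
            ((ext_diff (G i F)).differentiableAt (hΩ.mem_nhds hzΩ)).continuousAt
          exact this.tendsto.comp hcont
        refine h3.congr' ?_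
        filter_upwards [hevΩ] with t ht
        rw [← hG i, ext_sum _ _ ht, Finset.sum_div]
        apply Finset.sum_congr rfl
        intro F hF
        rw [ext_mul _ _ ht]
        ring
      exact tendsto_nhds_unique h1 h2
    calc ∑ i : Fin (n + 1), ext (lam i) z * (psi Set.univ z * psi (cls (n + 1) i) z)
        = ∑ i : Fin (n + 1), ∑ F ∈ S, ext (lam i) z * ext (G i F) (z, c * z) * l F := by
          apply Finset.sum_congr rfl
          intro i _
          rw [hval i, Finset.mul_sum]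
          apply Finset.sum_congr rfl
          intro F _
          ring
      _ = ∑ F ∈ S, (∑ i : Fin (n + 1), ext (lam i) z * ext (G i F) (z, c * z)) * l F := by
          rw [Finset.sum_comm]
          apply Finset.sum_congr rfl
          intro F _
          rw [Finset.sum_mul]
      _ = 0 := by
          apply Finset.sum_eq_zero
          intro F hF
          have h4 := congrFun hlam ⟨F, hF⟩
          simp only [Finset.sum_apply, Pi.smul_apply, smul_eq_mul, Pi.zero_apply] at h4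
          have h5 : ext (∑ i : Fin (n + 1), lam i * v i ⟨F, hF⟩) z = 0 := by
            rw [h4, ext_eq _ hz]; rfl
          rw [ext_sum _ _ hz] at h5
          have h6 : ∑ i : Fin (n + 1), ext (lam i) z * ext (G i F) (z, c * z) = 0 := by
            refine Eq.trans ?_ h5
            apply Finset.sum_congr rfl
            intro i _
            rw [ext_mul _ _ hz]
            congr 1
            exact (hrst (G i F) z hz).symm
          rw [h6, zero_mul]
  -- uniform bound
  have hbd : ∃ L : ℝ, ∀ i, ∀ z ∈ Metric.ball (0 : ℂ) 1, ‖ext (lam i) z‖ ≤ L := by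
    choose C hC using fun i => ext_bdd (lam i)
    refine ⟨∑ i, |C i|, fun i z hz => ?_⟩
    calc ‖ext (lam i) z‖ ≤ C i := hC i z hz
      _ ≤ |C i| := le_abs_self _
      _ ≤ ∑ i, |C i| := Finset.single_le_sum (f := fun i => |C i|)
          (fun _ _ => abs_nonneg _) (Finset.mem_univ i)
  obtain ⟨L, hL⟩ := hbd
  have hfin := indep (n + 1) (fun i => ext (lam i)) (fun i => ext_diff _) L hL (by
    filter_upwards [big_tendsto.eventually_gt_atTop 0] with k hk z hz
    have hz1 : z ∈ Metric.ball (0 : ℂ) 1 := by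
      simp only [Metric.mem_ball, dist_zero_right, hz]; exact rr_lt_one k
    have h1 := hrel z hz1
    have h2 : psi Set.univ z ≠ 0 := by
      have h3 := psi_ge (Set.mem_univ k) hz
      intro h4
      rw [h4, norm_zero] at h3
      linarith
    have h5 : psi Set.univ z * ∑ i : Fin (n + 1), ext (lam i) z * psi (cls (n + 1) i) z = 0 := by
      refine Eq.trans ?_ h1
      rw [Finset.mul_sum]
      apply Finset.sum_congr rfl
      intro i _
      ring
    exact (mul_eq_zero.mp h5).resolve_left h2)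
  apply hi0
  apply Subtype.ext
  funext p
  have h7 := hfin i0 p.1 p.2
  rw [ext_eq _ p.2] at h7
  exact h7

end Pool.Agent.HinfCoh
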